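import Pool.Agent.U140.FM.Def3
set_option autoImplicit false
/-! PACKAGE D1 of project FM (helper194). -/
namespace Pool.Agent.U140.FM
open Finset MeasureTheory ProbabilityTheory

namespace PkgD1

set_option linter.unusedSectionVars false
section general
variable {V M : Type} [DecidableEq V] [Fintype M] [Inhabited M]
variable (step : V → M → V) (r : V → ℝ)

theorem gain_nonneg (hr : ∀ v, 0 ≤ r v) {K : ℕ} (x : V) (u : Fin K → M) : 0 ≤ gain step r x u := by
  unfold gain
  apply List.sum_nonneg
  intro a ha
  rw [List.mem_map] at ha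
  obtain ⟨v, _, rfl⟩ := ha
  exact hr v

theorem base_nonneg (hr : ∀ v, 0 ≤ r v) {K : ℕ} (Z : Finset V) (w : V → Fin K → M) (X : Finset V) :
    0 ≤ base step r Z w X :=
  Finset.sum_nonneg fun z _ => gain_nonneg step r hr z (w z)

theorem reach_congr {K : ℕ} (Z : Finset V) (w w' : V → Fin K → M) (h : ∀ z ∈ Z, w z = w' z) (X : Finset V) :
    reach step Z w X = reach step Z w' X := by
  classical
  have key : ∀ (w w' : V → Fin K → M), (∀ z ∈ Z, w z = w' z) → ∀ x z, x ∈ Z →
      Relation.ReflTransGen (edge step Z w) x z →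
        (z ∈ Z ∧ Relation.ReflTransGen (edge step Z w') x z) := by
    intro w w' h x z hx hz
    induction hz with
    | refl => exact ⟨hx, Relation.ReflTransGen.refl⟩
    | tail hab hbc ih =>
      refine ⟨hbc.1, ih.2.tail ⟨hbc.1, ?_⟩⟩
      rw [← h _ ih.1]
      exact hbc.2
  unfold reach
  apply Finset.filter_congr
  intro z hz
  constructor
  · rintro ⟨x, hx, hxZ, hr⟩
    exact ⟨x, hx, hxZ, (key w w' h x z hxZ hr).2⟩
  · rintro ⟨x, hx, hxZ, hr⟩
    exact ⟨x, hx, hxZ, (key w' w (fun z hz => (h z hz).symm) x z hxZ hr).2⟩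

theorem base_congr {K : ℕ} (Z : Finset V) (w w' : V → Fin K → M) (h : ∀ z ∈ Z, w z = w' z) (X : Finset V) :
    base step r Z w X = base step r Z w' X := by
  unfold base
  rw [reach_congr step Z w w' h X]
  apply Finset.sum_congr rfl
  intro z hz
  have : z ∈ Z := by
    simp only [reach, Finset.mem_filter] at hz
    exact hz.1
  rw [h z this]

end general

theorem sum_swap {α β : Type} [Fintype α] [DecidableEq α] [Fintype β] (i : α) (H : β → (α → β) → ℝ)
    (hH : ∀ u w v, H u (Function.update w i v) = H u w) :
    ∑ w : α → β, ∑ u : β, H u w = Fintype.card β * ∑ w : α → β, H (w i) w := by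
  have hinv : Function.Involutive
      (fun p : β × (α → β) => ((p.2 i, Function.update p.2 i p.1) : β × (α → β))) := by
    rintro ⟨u, w⟩
    simp
  calc ∑ w : α → β, ∑ u : β, H u w = ∑ p : β × (α → β), H p.1 p.2 := by
        rw [Fintype.sum_prod_type_right]
    _ = ∑ p : β × (α → β), H (p.2 i) (Function.update p.2 i p.1) := by
        exact (Equiv.sum_comp hinv.toPerm (fun p : β × (α → β) => H p.1 p.2)).symm
    _ = ∑ p : β × (α → β), H (p.2 i) p.2 := by simp only [hH]
    _ = _ := by
        rw [Fintype.sum_prod_type]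
        simp [Finset.sum_const, Finset.card_univ]

theorem avg_swap {α β : Type} [Fintype α] [DecidableEq α] [Fintype β] [Nonempty β] (i : α)
    (H : β → (α → β) → ℝ) (hH : ∀ u w v, H u (Function.update w i v) = H u w) :
    avg (fun w : α → β => avg fun u : β => H u w) = avg fun w : α → β => H (w i) w := by
  unfold avg
  rw [← Finset.sum_div, sum_swap i H hH]
  have : (Fintype.card β : ℝ) ≠ 0 := by
    exact_mod_cast Fintype.card_ne_zero
  field_simp

end PkgD1

open PkgD1 in
theorem expect_tot (n K : ℕ) (Ω : Type) [MeasurableSpace Ω] (P : Measure Ω) [IsProbabilityMeasure P]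
    (ξ : List (Fin 4) → ℕ → Ω → Fin 4 × Fin 5) (hm : ∀ v k, Measurable (ξ v k))
    (hi : iIndepFun (fun p : List (Fin 4) × ℕ => ξ p.1 p.2) P)
    (hu : ∀ v k (c : Fin 4 × Fin 5), P (ξ v k ⁻¹' {c}) = 1 / 20) :
    ∫⁻ ω, ENNReal.ofReal (tot n K fun v k => ξ v k ω) ∂P = ENNReal.ofReal (FT n K [[]] {v | v ≠ []}) := by
  classical
  have hroot : ([] : Vt) ∈ ball n := by
    simp [ball]
  let B := ball n
  let Z : Finset Vt := (ball n).filter (· ≠ [])
  let b0 : ball n := ⟨[], hroot⟩
  let G : ((ball n) → Fin K → Mv) → ℝ := fun c =>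
    gain (stepT n) rt [] (c b0) + base (stepT n) rt Z (ext (ball n) c) (vis (stepT n) [] (c b0))
  have hrt : ∀ v, 0 ≤ rt v := by
    intro v
    unfold rt
    split_ifs <;> norm_num
  have hG0 : ∀ c, 0 ≤ G c := fun c =>
    add_nonneg (gain_nonneg _ _ hrt _ _) (base_nonneg _ _ hrt _ _ _)
  -- step 1: `tot` depends only on the restricted moves
  have h1 : ∀ w : Vt → ℕ → Mv, tot n K w = G (fun (b : ball n) (k : Fin K) => w b k) := by
    intro w
    have hb : ∀ X, base (stepT n) rt Z (fun v (k : Fin K) => w v k) X =
        base (stepT n) rt Z (ext (ball n) (fun (b : ball n) (k : Fin K) => w b k)) X := by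
      intro X
      apply base_congr
      intro z hz
      have hz' : z ∈ ball n := (Finset.mem_filter.1 hz).1
      simp [ext, hz']
    show gain (stepT n) rt [] (fun k : Fin K => w [] k) + base (stepT n) rt _ _ _ = _
    show _ = gain (stepT n) rt [] (fun k : Fin K => w [] k) +
      base (stepT n) rt Z (ext (ball n) (fun (b : ball n) (k : Fin K) => w b k))
        (vis (stepT n) [] (fun k : Fin K => w [] k))
    rw [← hb]
  -- step 2: the functional
  have h2 : FT n K [[]] {v | v ≠ []} = avg G := by
    have hZ : (ball n).filter (· ∈ {v : Vt | v ≠ []}) = Z := by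
      ext v
      simp [Z]
    have hsw := avg_swap (α := ball n) (β := Fin K → Mv) b0
      (fun u w => gain (stepT n) rt [] u + base (stepT n) rt Z (ext (ball n) w) (vis (stepT n) [] u))
      (by
        intro u w v
        congr 1
        apply base_congr
        intro z hz
        have hz' : z ∈ ball n := (Finset.mem_filter.1 hz).1
        have hz0 : z ≠ [] := (Finset.mem_filter.1 hz).2
        have : (⟨z, hz'⟩ : ball n) ≠ b0 := by
          intro h
          exact hz0 (congrArg Subtype.val h)
        simp [ext, hz', Function.update_of_ne this])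
    calc FT n K [[]] {v | v ≠ []} = avg (fun w : ball n → Fin K → Mv => avg fun u : Fin K → Mv =>
          gain (stepT n) rt [] u + base (stepT n) rt Z (ext (ball n) w) (vis (stepT n) [] u)) := by
          unfold FT F
          congr 1
          funext w
          simp only [Phi, Finset.empty_union]
          congr 1
          funext u
          congr 2
          ext v
          simp [Z]
      _ = avg G := hsw
  -- step 3: the law of the restricted moves
  let Y : Ω → (ball n → Fin K → Mv) := fun ω b k => ξ b k ω
  have hY : Measurable Y := by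
    refine measurable_pi_lambda _ fun b => measurable_pi_lambda _ fun k => hm _ _
  have hPY : ∀ c : ball n → Fin K → Mv, (P.map Y) {c} = (1 / 20) ^ ((ball n).card * K) := by
    intro c
    rw [Measure.map_apply hY (measurableSet_singleton c)]
    let S : Finset (List (Fin 4) × ℕ) := (ball n) ×ˢ (Finset.range K)
    let A : List (Fin 4) × ℕ → Set (Fin 4 × Fin 5) := fun p =>
      if h : p.1 ∈ ball n ∧ p.2 < K then {c ⟨p.1, h.1⟩ ⟨p.2, h.2⟩} else Set.univ
    have hset : Y ⁻¹' {c} = ⋂ p ∈ S, (fun p : List (Fin 4) × ℕ => ξ p.1 p.2) p ⁻¹' (A p) := by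
      ext ω
      simp only [Set.mem_preimage, Set.mem_singleton_iff, Set.mem_iInter]
      constructor
      · intro h p hp
        rw [Finset.mem_product, Finset.mem_range] at hp
        simp only [A, hp, and_self, dite_true, Set.mem_singleton_iff]
        rw [← h]
      · intro h
        funext b k
        have := h (b.1, k.1) (by
          rw [Finset.mem_product, Finset.mem_range]
          exact ⟨b.2, k.2⟩)
        simpa [A] using this
    rw [hset, hi.measure_inter_preimage_eq_mul S (sets := A) (fun p _ => MeasurableSet.of_discrete)]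
    have hprod : ∀ p ∈ S, P ((fun p : List (Fin 4) × ℕ => ξ p.1 p.2) p ⁻¹' (A p)) = 1 / 20 := by
      intro p hp
      rw [Finset.mem_product, Finset.mem_range] at hp
      simp only [A, hp, and_self, dite_true]
      exact hu _ _ _
    rw [Finset.prod_congr rfl hprod, Finset.prod_const]
    congr 1
    simp [S, Finset.card_product]
  have hlin : ∫⁻ ω, ENNReal.ofReal (tot n K fun v k => ξ v k ω) ∂P =
      ∫⁻ c, ENNReal.ofReal (G c) ∂(P.map Y) := by
    rw [lintegral_map (measurable_of_finite _) hY]
    apply lintegral_congr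
    intro ω
    rw [h1]
  rw [hlin, h2, lintegral_fintype]
  simp only [hPY]
  unfold avg
  rw [← Finset.sum_mul, ← ENNReal.ofReal_sum_of_nonneg (fun c _ => hG0 c)]
  have hcard : (Fintype.card (ball n → Fin K → Mv) : ℝ) = 20 ^ ((ball n).card * K) := by
    have : Fintype.card (ball n → Fin K → Mv) = 20 ^ ((ball n).card * K) := by
      rw [Fintype.card_fun, Fintype.card_fun, Fintype.card_coe, Fintype.card_fin]
      have : Fintype.card Mv = 20 := by decide
      rw [this, ← pow_mul, mul_comm]
    rw [this]
    norm_num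
  rw [hcard, ENNReal.ofReal_div_of_pos (by positivity), ENNReal.ofReal_pow (by norm_num)]
  rw [ENNReal.ofReal_ofNat, one_div, ← ENNReal.inv_pow, ENNReal.div_eq_inv_mul, mul_comm]

end Pool.Agent.U140.FM
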